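import Mathlib

/-!
# Algebra for a non-trivial, non-affine plane bundle over the punctured plane

`R = ℂ[x, y][z₀, z₁][T] / (T² = y z₀ - x z₁)`.
-/

set_option autoImplicit false

open MvPolynomial

namespace Pool.Agent.PuncBundle

noncomputable section

/-- base ring `ℂ[x, y]` -/
abbrev A : Type := MvPolynomial (Fin 2) ℂ
/-- first coordinate of the base -/
abbrev xA : A := X 0
/-- second coordinate of the base -/
abbrev yA : A := X 1

/-- `S = A[z₀, z₁]` -/
abbrev S : Type := MvPolynomial (Fin 2) A

/-- The constant term of the quadratic relation. -/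
abbrev q : S := C yA * X 0 - C xA * X 1

/-- `R = S[T] / (T² - q)` -/
abbrev R : Type := QuadraticAlgebra S q 0

/-- Algebraic Hartogs property for a pair of elements. -/
structure HartogsPair (B : Type*) [CommRing B] (a b : B) : Prop where
  /-- `a` is regular -/
  reg_a : ∀ r : B, a * r = 0 → r = 0
  /-- `b` is regular -/
  reg_b : ∀ r : B, b * r = 0 → r = 0
  /-- coprimality of the powers of `a` and `b` -/
  dvd : ∀ (k l : ℕ) (r s : B), b ^ l * r = a ^ k * s → a ^ k ∣ r

lemma HartogsPair.of_prime {B : Type*} [CommRing B] [IsDomain B] {a b : B} (ha : Prime a)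
    (hb : ¬ a ∣ b) : HartogsPair B a b where
  reg_a r h := by
    rcases mul_eq_zero.mp h with h | h
    · exact absurd h ha.ne_zero
    · exact h
  reg_b r h := by
    rcases mul_eq_zero.mp h with h | h
    · exact absurd (h ▸ dvd_zero a) hb
    · exact h
  dvd k l r s h := by
    have h1 : a ^ k ∣ b ^ l * r := ⟨s, h⟩
    exact ha.pow_dvd_of_dvd_mul_left k (fun h2 => hb (ha.dvd_of_dvd_pow h2)) h1

lemma prime_CxA : Prime (C xA : S) := by
  rw [MvPolynomial.prime_C_iff]
  exact MvPolynomial.X_prime

lemma not_xA_dvd_yA : ¬ (C xA : S) ∣ C yA := by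
  rintro ⟨g, hg⟩
  have h2 := congrArg (MvPolynomial.eval₂Hom (MvPolynomial.eval ![(0 : ℂ), 1]) (fun _ => 0)) hg
  simp at h2

lemma hartogs_S : HartogsPair S (C xA) (C yA) :=
  HartogsPair.of_prime prime_CxA not_xA_dvd_yA

lemma algebraMap_A_R (a : A) : algebraMap A R a = ⟨C a, 0⟩ := rfl

lemma hartogs_R : HartogsPair R (algebraMap A R xA) (algebraMap A R yA) where
  reg_a r h := by
    rw [algebraMap_A_R] at h
    have h1 := congrArg QuadraticAlgebra.re h
    have h2 := congrArg QuadraticAlgebra.im h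
    simp only [QuadraticAlgebra.re_mul, QuadraticAlgebra.im_mul, mul_zero, zero_mul,
      add_zero, QuadraticAlgebra.re_zero, QuadraticAlgebra.im_zero] at h1 h2
    ext1
    · exact hartogs_S.reg_a _ h1
    · exact hartogs_S.reg_a _ h2
  reg_b r h := by
    rw [algebraMap_A_R] at h
    have h1 := congrArg QuadraticAlgebra.re h
    have h2 := congrArg QuadraticAlgebra.im h
    simp only [QuadraticAlgebra.re_mul, QuadraticAlgebra.im_mul, mul_zero, zero_mul,
      add_zero, QuadraticAlgebra.re_zero, QuadraticAlgebra.im_zero] at h1 h2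
    ext1
    · exact hartogs_S.reg_b _ h1
    · exact hartogs_S.reg_b _ h2
  dvd k l r s h := by
    have e1 : ∀ (a : A) (k : ℕ), (algebraMap A R a) ^ k = ⟨(C a) ^ k, 0⟩ := by
      intro a k
      rw [← map_pow, algebraMap_A_R, map_pow]
    rw [e1, e1] at h
    have h1 := congrArg QuadraticAlgebra.re h
    have h2 := congrArg QuadraticAlgebra.im h
    simp only [QuadraticAlgebra.re_mul, QuadraticAlgebra.im_mul, mul_zero, zero_mul,
      add_zero] at h1 h2
    obtain ⟨u, hu⟩ := hartogs_S.dvd _ _ _ _ h1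
    obtain ⟨v, hv⟩ := hartogs_S.dvd _ _ _ _ h2
    refine ⟨⟨u, v⟩, ?_⟩
    rw [e1]
    ext1
    · simp [hu]
    · simp [hv]

end

end Pool.Agent.PuncBundle
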