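import Mathlib

/-!
# Local triviality from an algebraic chart
-/

set_option autoImplicit false

open AlgebraicGeometry CategoryTheory CategoryTheory.Limits MvPolynomial

namespace Pool.Agent.PuncBundle

/-- Algebraic chart criterion: `MvPolynomial σ (A_a)` is the localisation of `R` away from `a`. -/
theorem isLocalization_of_chart {A R : Type} [CommRing A] [IsDomain A] [CommRing R] [Algebra A R]
    {σ : Type} (a : A) (ha : a ≠ 0) (hreg : ∀ r : R, algebraMap A R a * r = 0 → r = 0)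
    (γ : MvPolynomial σ A →ₐ[A] R) (β : R →+* MvPolynomial σ (Localization.Away a))
    (hβ : ∀ x : A, β (algebraMap A R x) = C (algebraMap A (Localization.Away a) x))
    (hβγ : ∀ g, β (γ g) = MvPolynomial.map (algebraMap A (Localization.Away a)) g)
    (hγ : ∀ r : R, ∃ (k : ℕ) (g : MvPolynomial σ A), algebraMap A R a ^ k * r = γ g) :
    letI := β.toAlgebra
    IsLocalization ((Submonoid.powers a).map (algebraMap A R))
      (MvPolynomial σ (Localization.Away a)) := by
  let _ := β.toAlgebra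
  have hcan : ∀ x : A, (algebraMap A (Localization.Away a) x = 0) → x = 0 := by
    intro x hx
    have hinj : Function.Injective (algebraMap A (Localization.Away a)) :=
      IsLocalization.injective _ (powers_le_nonZeroDivisors_of_noZeroDivisors ha)
    exact hinj (by rw [hx, map_zero])
  have hinjmap : Function.Injective
      (MvPolynomial.map (σ := σ) (algebraMap A (Localization.Away a))) :=
    MvPolynomial.map_injective _ ((injective_iff_map_eq_zero _).mpr hcan)
  have hregk : ∀ (k : ℕ) (r : R), algebraMap A R a ^ k * r = 0 → r = 0 := by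
    intro k
    induction k with
    | zero => intro r h; simpa using h
    | succ k ih =>
      intro r h
      rw [pow_succ, mul_assoc] at h
      exact hreg _ (ih _ h)
  have halg : ∀ r : R, algebraMap R (MvPolynomial σ (Localization.Away a)) r = β r := fun _ => rfl
  refine (isLocalization_iff _ _).mpr ⟨?_, ?_, ?_⟩
  · rintro ⟨_, ⟨_, ⟨k, rfl⟩, rfl⟩⟩
    rw [halg]
    simp only [map_pow]
    rw [hβ]
    exact ((IsLocalization.Away.algebraMap_isUnit a).map C).pow k
  · intro z
    let _ := MvPolynomial.algebraMvPolynomial (σ := σ) (R := A) (S := Localization.Away a)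
    obtain ⟨⟨g, ⟨m, hm⟩⟩, hgm⟩ := IsLocalization.surj
      (M := (Submonoid.powers a).map (C (σ := σ) (R := A))) z
    obtain ⟨_, ⟨k, rfl⟩, rfl⟩ := hm
    refine ⟨⟨γ g, ⟨algebraMap A R (a ^ k), ⟨_, ⟨k, rfl⟩, rfl⟩⟩⟩, ?_⟩
    rw [halg, halg]
    simp only
    rw [hβγ, hβ]
    have h2 : z * (MvPolynomial.map (algebraMap A (Localization.Away a)) (C (a ^ k)))
      = MvPolynomial.map (algebraMap A (Localization.Away a)) g := hgm
    rw [MvPolynomial.map_C] at h2
    exact h2
  · intro r s hrs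
    rw [halg, halg] at hrs
    obtain ⟨k, g, hg⟩ := hγ r
    obtain ⟨l, h, hh⟩ := hγ s
    refine ⟨⟨algebraMap A R (a ^ (k + l)), ⟨_, ⟨k + l, rfl⟩, rfl⟩⟩, ?_⟩
    simp only [map_pow]
    have e1 : β (γ (C a ^ l * g)) = β (γ (C a ^ k * h)) := by
      have e2 : γ (C a) = algebraMap A R a := by
        have := γ.commutes a
        rwa [MvPolynomial.algebraMap_eq] at this
      have e5 : γ (C a ^ l * g) = algebraMap A R a ^ l * (algebraMap A R a ^ k * r) := by
        rw [map_mul, map_pow, e2, hg]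
      have e6 : γ (C a ^ k * h) = algebraMap A R a ^ k * (algebraMap A R a ^ l * s) := by
        rw [map_mul, map_pow, e2, hh]
      rw [e5, e6]
      simp only [map_mul, map_pow]
      rw [hrs]
      ring
    rw [hβγ, hβγ] at e1
    have e3 := hinjmap e1
    have e4 := congrArg γ e3
    have e2 : γ (C a) = algebraMap A R a := by
      have := γ.commutes a
      rwa [MvPolynomial.algebraMap_eq] at this
    rw [map_mul, map_mul, map_pow, map_pow, e2, ← hg, ← hh] at e4
    rw [pow_add]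
    linear_combination e4

/-- Geometric local triviality from two pushout squares. -/
theorem exists_iso_of_chart {A R Aa P B K : CommRingCat.{0}} (φ : A ⟶ R) (U : (Spec A).Opens)
    (c : K ⟶ A) (j : A ⟶ Aa) (cP : K ⟶ P) (β : R ⟶ B) (i : Aa ⟶ B) (d : P ⟶ B)
    (h1 : IsPushout φ j β i) (h2 : IsPushout (c ≫ j) cP i d)
    [IsOpenImmersion (Spec.map j)] (hU : (Spec.map j).opensRange ≤ U) :
    ∃ V : U.toScheme.Opens, V = U.ι ⁻¹ᵁ (Spec.map j).opensRange ∧
      ∃ e : ((Spec.map φ ∣_ U) ⁻¹ᵁ V).toScheme ≅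
        pullback (V.ι ≫ U.ι ≫ Spec.map c) (Spec.map cP),
        e.hom ≫ pullback.fst _ _ = (Spec.map φ ∣_ U) ∣_ V := by
  refine ⟨_, rfl, ?_⟩
  set V : U.toScheme.Opens := U.ι ⁻¹ᵁ (Spec.map j).opensRange with hV
  -- the iso V ≅ Spec Aa
  have hrange : Set.range (V.ι ≫ U.ι) = Set.range (Spec.map j) := by
    ext x
    simp only [Scheme.Hom.comp_base, TopCat.coe_comp, Set.range_comp, Scheme.Opens.range_ι]
    constructor
    · rintro ⟨y, hy, rfl⟩
      exact hy
    · intro hx
      exact ⟨⟨x, hU hx⟩, hx, rfl⟩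
  let k : V.toScheme ≅ Spec Aa := IsOpenImmersion.isoOfRangeEq (V.ι ≫ U.ι) (Spec.map j) hrange
  have hk : k.hom ≫ Spec.map j = V.ι ≫ U.ι := IsOpenImmersion.isoOfRangeEq_hom_fac _ _ _
  -- pullback squares
  have hp1 : IsPullback (((Spec.map φ ∣_ U) ⁻¹ᵁ V).ι ≫ (Spec.map φ ⁻¹ᵁ U).ι)
      ((Spec.map φ ∣_ U) ∣_ V) (Spec.map φ) (V.ι ≫ U.ι) :=
    ((isPullback_morphismRestrict (Spec.map φ ∣_ U) V).flip.paste_horiz
      (isPullback_morphismRestrict (Spec.map φ) U).flip)
  have hp2 : IsPullback (Spec.map β) (Spec.map i) (Spec.map φ) (Spec.map j) :=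
    isPullback_SpecMap_of_isPushout _ _ _ _ h1
  have hp3 : IsPullback (((Spec.map φ ∣_ U) ⁻¹ᵁ V).ι ≫ (Spec.map φ ⁻¹ᵁ U).ι)
      ((Spec.map φ ∣_ U) ∣_ V ≫ k.hom) (Spec.map φ) (Spec.map j) := by
    refine IsPullback.of_iso hp1 (Iso.refl _) (Iso.refl _) k (Iso.refl _) ?_ ?_ ?_ ?_
    · simp
    · simp
    · simp
    · simp [hk]
  let m : ((Spec.map φ ∣_ U) ⁻¹ᵁ V).toScheme ≅ Spec B := hp3.isoIsPullback _ _ hp2
  have hm : m.hom ≫ Spec.map i = (Spec.map φ ∣_ U) ∣_ V ≫ k.hom :=
    IsPullback.isoIsPullback_hom_snd _ _ hp3 hp2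
  have hp4 : IsPullback (Spec.map i) (Spec.map d) (Spec.map (c ≫ j)) (Spec.map cP) :=
    isPullback_SpecMap_of_isPushout _ _ _ _ h2
  have hp5 : IsPullback ((Spec.map φ ∣_ U) ∣_ V) (m.hom ≫ Spec.map d)
      (V.ι ≫ U.ι ≫ Spec.map c) (Spec.map cP) := by
    refine IsPullback.of_iso hp4 m.symm k.symm (Iso.refl _) (Iso.refl _) ?_ ?_ ?_ ?_
    · rw [Iso.symm_hom, Iso.symm_hom, Iso.eq_inv_comp, ← Category.assoc, hm]
      simp
    · simp
    · simp only [Iso.symm_hom, Iso.refl_hom, Category.comp_id, Spec.map_comp]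
      rw [Iso.eq_inv_comp, ← Category.assoc, hk, Category.assoc]
    · simp
  exact ⟨hp5.isoPullback, hp5.isoPullback_hom_fst⟩

end Pool.Agent.PuncBundle
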