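import Pool.Agent.PuncBundle.Algebra
import Pool.Agent.PuncBundle.Chart

/-!
# The two algebraic charts of `R`
-/

set_option autoImplicit false

open AlgebraicGeometry CategoryTheory CategoryTheory.Limits MvPolynomial

namespace Pool.Agent.PuncBundle

noncomputable section

/-- Ring homomorphisms out of a quadratic algebra (with trivial linear term). -/
def quadLift {S₀ B : Type} [CommRing S₀] [CommRing B] {q₀ : S₀} (s : S₀ →+* B) (u : B)
    (hu : u * u = s q₀) : QuadraticAlgebra S₀ q₀ 0 →+* B where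
  toFun r := s r.re + s r.im * u
  map_one' := by simp [QuadraticAlgebra.re_one, QuadraticAlgebra.im_one]
  map_zero' := by simp
  map_mul' r t := by
    simp only [QuadraticAlgebra.re_mul, QuadraticAlgebra.im_mul, map_add, map_mul,
      zero_mul, add_zero]
    linear_combination (-(s r.im * s t.im)) * hu
  map_add' r t := by
    simp only [QuadraticAlgebra.re_add, QuadraticAlgebra.im_add, map_add]
    ring

/-- The element `T` of `R`. -/
abbrev T : R := ⟨0, 1⟩
/-- The element `z₀` of `R`. -/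
abbrev z0 : R := ⟨X 0, 0⟩
/-- The element `z₁` of `R`. -/
abbrev z1 : R := ⟨X 1, 0⟩

lemma T_mul_T : T * T = algebraMap A R yA * z0 - algebraMap A R xA * z1 := by
  rw [algebraMap_A_R, algebraMap_A_R]
  ext1 <;> simp

/-! ### chart over `x ≠ 0` -/

/-- localisation at `x` -/
abbrev Ax : Type := Localization.Away xA
/-- localisation at `y` -/
abbrev Ay : Type := Localization.Away yA

/-- `z₀ ↦ X 0`, `z₁ ↦ (y X 0 - X 1 ^ 2) / x` -/
def sx : S →+* MvPolynomial (Fin 2) Ax :=
  eval₂Hom ((C : Ax →+* MvPolynomial (Fin 2) Ax).comp (algebraMap A Ax))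
    ![X 0, C (IsLocalization.Away.invSelf xA) * (C (algebraMap A Ax yA) * X 0 - X 1 ^ 2)]

/-- `z₁ ↦ X 0`, `z₀ ↦ (x X 0 + X 1 ^ 2) / y` -/
def sy : S →+* MvPolynomial (Fin 2) Ay :=
  eval₂Hom ((C : Ay →+* MvPolynomial (Fin 2) Ay).comp (algebraMap A Ay))
    ![C (IsLocalization.Away.invSelf yA) * (C (algebraMap A Ay xA) * X 0 + X 1 ^ 2), X 0]

lemma sx_q : (X 1 : MvPolynomial (Fin 2) Ax) * X 1 = sx q := by
  have h : (C (algebraMap A Ax xA) : MvPolynomial (Fin 2) Ax) *
      C (IsLocalization.Away.invSelf xA) = 1 := by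
    rw [← C_mul, IsLocalization.Away.mul_invSelf, C_1]
  simp only [sx, q, map_sub, map_mul, coe_eval₂Hom, eval₂_C, eval₂_X, RingHom.comp_apply,
    Matrix.cons_val_zero, Matrix.cons_val_one]
  linear_combination (C (algebraMap A Ax yA) * X 0 - X 1 ^ 2) * h

lemma sy_q : (X 1 : MvPolynomial (Fin 2) Ay) * X 1 = sy q := by
  have h : (C (algebraMap A Ay yA) : MvPolynomial (Fin 2) Ay) *
      C (IsLocalization.Away.invSelf yA) = 1 := by
    rw [← C_mul, IsLocalization.Away.mul_invSelf, C_1]
  simp only [sy, q, map_sub, map_mul, coe_eval₂Hom, eval₂_C, eval₂_X, RingHom.comp_apply,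
    Matrix.cons_val_zero, Matrix.cons_val_one]
  linear_combination (-(C (algebraMap A Ay xA) * X 0 + X 1 ^ 2)) * h

/-- chart ring map over `x ≠ 0` -/
def βx : R →+* MvPolynomial (Fin 2) Ax := quadLift sx (X 1) sx_q
/-- chart ring map over `y ≠ 0` -/
def βy : R →+* MvPolynomial (Fin 2) Ay := quadLift sy (X 1) sy_q

/-- coordinates `z₀, T` -/
def γx : MvPolynomial (Fin 2) A →ₐ[A] R := aeval ![z0, T]
/-- coordinates `z₁, T` -/
def γy : MvPolynomial (Fin 2) A →ₐ[A] R := aeval ![z1, T]

lemma βx_algebraMap (a : A) : βx (algebraMap A R a) = C (algebraMap A Ax a) := by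
  rw [algebraMap_A_R]
  simp [βx, quadLift, sx]

lemma βy_algebraMap (a : A) : βy (algebraMap A R a) = C (algebraMap A Ay a) := by
  rw [algebraMap_A_R]
  simp [βy, quadLift, sy]

lemma βx_γx (g : MvPolynomial (Fin 2) A) :
    βx (γx g) = MvPolynomial.map (algebraMap A Ax) g := by
  have : βx.comp (γx : MvPolynomial (Fin 2) A →+* R) = MvPolynomial.map (algebraMap A Ax) := by
    apply MvPolynomial.ringHom_ext
    · intro a
      simp only [RingHom.comp_apply, RingHom.coe_coe, map_C]
      have : γx (C a) = algebraMap A R a := by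
        have := γx.commutes a
        rwa [MvPolynomial.algebraMap_eq] at this
      rw [this, βx_algebraMap]
    · intro i
      fin_cases i
      · simp [γx, βx, quadLift, sx]
      · simp [γx, βx, quadLift, sx]
  exact congrArg (fun f => f g) this

lemma βy_γy (g : MvPolynomial (Fin 2) A) :
    βy (γy g) = MvPolynomial.map (algebraMap A Ay) g := by
  have : βy.comp (γy : MvPolynomial (Fin 2) A →+* R) = MvPolynomial.map (algebraMap A Ay) := by
    apply MvPolynomial.ringHom_ext
    · intro a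
      simp only [RingHom.comp_apply, RingHom.coe_coe, map_C]
      have : γy (C a) = algebraMap A R a := by
        have := γy.commutes a
        rwa [MvPolynomial.algebraMap_eq] at this
      rw [this, βy_algebraMap]
    · intro i
      fin_cases i
      · simp [γy, βy, quadLift, sy]
      · simp [γy, βy, quadLift, sy]
  exact congrArg (fun f => f g) this

/-- The set of elements that become polynomial in the chart coordinates after multiplying by a
power of `a`. -/
def ClearsBy (a : A) (γ : MvPolynomial (Fin 2) A →ₐ[A] R) (r : R) : Prop :=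
  ∃ (k : ℕ) (g : MvPolynomial (Fin 2) A), algebraMap A R a ^ k * r = γ g

lemma γ_C (γ : MvPolynomial (Fin 2) A →ₐ[A] R) (a : A) : γ (C a) = algebraMap A R a := by
  have := γ.commutes a
  rwa [MvPolynomial.algebraMap_eq] at this

lemma ClearsBy.add {a : A} {γ : MvPolynomial (Fin 2) A →ₐ[A] R} {r s : R}
    (hr : ClearsBy a γ r) (hs : ClearsBy a γ s) : ClearsBy a γ (r + s) := by
  obtain ⟨k, g, hg⟩ := hr
  obtain ⟨l, h, hh⟩ := hs
  refine ⟨k + l, C a ^ l * g + C a ^ k * h, ?_⟩
  rw [map_add, map_mul, map_mul, map_pow, map_pow, γ_C, ← hg, ← hh, pow_add]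
  ring

lemma ClearsBy.mul {a : A} {γ : MvPolynomial (Fin 2) A →ₐ[A] R} {r s : R}
    (hr : ClearsBy a γ r) (hs : ClearsBy a γ s) : ClearsBy a γ (r * s) := by
  obtain ⟨k, g, hg⟩ := hr
  obtain ⟨l, h, hh⟩ := hs
  refine ⟨k + l, g * h, ?_⟩
  rw [map_mul, ← hg, ← hh, pow_add]
  ring

lemma ClearsBy.all {a : A} {γ : MvPolynomial (Fin 2) A →ₐ[A] R}
    (h0 : ClearsBy a γ z0) (h1 : ClearsBy a γ z1) (hT : ClearsBy a γ T) (r : R) :
    ClearsBy a γ r := by
  have hS : ∀ s : S, ClearsBy a γ ⟨s, 0⟩ := by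
    intro s
    induction s using MvPolynomial.induction_on with
    | C c =>
      exact ⟨0, C c, by rw [γ_C, pow_zero, one_mul, algebraMap_A_R]⟩
    | add p q hp hq =>
      have : (⟨p + q, 0⟩ : R) = ⟨p, 0⟩ + ⟨q, 0⟩ := by ext1 <;> simp
      rw [this]
      exact hp.add hq
    | mul_X p i hp =>
      have : (⟨p * X i, 0⟩ : R) = ⟨p, 0⟩ * ⟨X i, 0⟩ := by ext1 <;> simp
      rw [this]
      refine hp.mul ?_
      fin_cases i
      · exact h0
      · exact h1
  have : r = ⟨r.re, 0⟩ + ⟨r.im, 0⟩ * T := by ext1 <;> simp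
  rw [this]
  exact (hS _).add ((hS _).mul hT)

lemma clears_x (r : R) : ClearsBy xA γx r := by
  refine ClearsBy.all ⟨0, X 0, by simp [γx]⟩ ?_ ⟨0, X 1, by simp [γx]⟩ r
  refine ⟨1, C yA * X 0 - X 1 ^ 2, ?_⟩
  rw [map_sub, map_mul, map_pow, γ_C]
  simp only [γx, aeval_X, Matrix.cons_val_zero, Matrix.cons_val_one, pow_one]
  linear_combination T_mul_T

lemma clears_y (r : R) : ClearsBy yA γy r := by
  refine ClearsBy.all ?_ ⟨0, X 0, by simp [γy]⟩ ⟨0, X 1, by simp [γy]⟩ r
  refine ⟨1, C xA * X 0 + X 1 ^ 2, ?_⟩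
  rw [map_add, map_mul, map_pow, γ_C]
  simp only [γy, aeval_X, Matrix.cons_val_zero, Matrix.cons_val_one, pow_one]
  linear_combination (-1 : R) * T_mul_T

lemma isLoc_x :
    letI := βx.toAlgebra
    IsLocalization ((Submonoid.powers xA).map (algebraMap A R)) (MvPolynomial (Fin 2) Ax) :=
  isLocalization_of_chart xA (X_ne_zero 0) hartogs_R.reg_a γx βx βx_algebraMap βx_γx clears_x

lemma isLoc_y :
    letI := βy.toAlgebra
    IsLocalization ((Submonoid.powers yA).map (algebraMap A R)) (MvPolynomial (Fin 2) Ay) :=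
  isLocalization_of_chart yA (X_ne_zero 1) hartogs_R.reg_b γy βy βy_algebraMap βy_γy clears_y

lemma isPushout_x : IsPushout (CommRingCat.ofHom (algebraMap A R))
    (CommRingCat.ofHom (algebraMap A Ax)) (CommRingCat.ofHom βx)
    (CommRingCat.ofHom (C : Ax →+* MvPolynomial (Fin 2) Ax)) := by
  let _ := βx.toAlgebra
  have := isLoc_x
  exact CommRingCat.isPushout_of_isLocalization (algebraMap A R)
    (C : Ax →+* MvPolynomial (Fin 2) Ax)
    (RingHom.ext fun a => (βx_algebraMap a).symm) (Submonoid.powers xA)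

lemma isPushout_y : IsPushout (CommRingCat.ofHom (algebraMap A R))
    (CommRingCat.ofHom (algebraMap A Ay)) (CommRingCat.ofHom βy)
    (CommRingCat.ofHom (C : Ay →+* MvPolynomial (Fin 2) Ay)) := by
  let _ := βy.toAlgebra
  have := isLoc_y
  exact CommRingCat.isPushout_of_isLocalization (algebraMap A R)
    (C : Ay →+* MvPolynomial (Fin 2) Ay)
    (RingHom.ext fun a => (βy_algebraMap a).symm) (Submonoid.powers yA)

/-- polynomial rings are pushouts -/
lemma isPushout_poly (K B : Type) [CommRing K] [CommRing B] [Algebra K B] :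
    IsPushout (CommRingCat.ofHom (algebraMap K B))
      (CommRingCat.ofHom (algebraMap K (MvPolynomial (Fin 2) K)))
      (CommRingCat.ofHom (C : B →+* MvPolynomial (Fin 2) B))
      (CommRingCat.ofHom (MvPolynomial.map (σ := Fin 2) (algebraMap K B))) := by
  let _ := MvPolynomial.algebraMvPolynomial (σ := Fin 2) (R := K) (S := B)
  have h := CommRingCat.isPushout_of_isPushout K B (MvPolynomial (Fin 2) K)
    (MvPolynomial (Fin 2) B)
  exact h

end

end Pool.Agent.PuncBundle
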