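import Pool.Agent.PuncBundle.Hartogs

/-!
# Global consequences: non-affineness and recovering the algebra
-/

set_option autoImplicit false

open AlgebraicGeometry CategoryTheory CategoryTheory.Limits MvPolynomial Opposite
open TopologicalSpace

namespace Pool.Agent.PuncBundle

/-- restriction `B → Γ(W)` as a morphism -/
noncomputable def resHom (B : CommRingCat.{0}) (W : (Spec B).Opens) : B ⟶ Γ(W.toScheme, ⊤) :=
  (Scheme.ΓSpecIso B).inv ≫ W.ι.appTop

lemma isIso_resHom (B : CommRingCat.{0}) (a b : B) (h : HartogsPair B a b)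
    (W : (Spec B).Opens)
    (hW : W = (PrimeSpectrum.basicOpen a ⊔ PrimeSpectrum.basicOpen b : (Spec B).Opens)) :
    IsIso (resHom B W) := by
  have h1 : resHom B W ≫ W.topIso.hom =
      CommRingCat.ofHom (algebraMap B Γ(Spec B, W)) := by
    ext x
    rw [IsAffineOpen.algebraMap_Spec_obj]
    simp only [resHom, Scheme.Opens.ι_appTop, Scheme.Opens.topIso_hom, Category.assoc]
    rfl
  have h2 : IsIso (CommRingCat.ofHom (algebraMap B Γ(Spec B, W))) := by
    rw [ConcreteCategory.isIso_iff_bijective]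
    exact bijective_algebraMap B a b h W hW
  have h3 : resHom B W = CommRingCat.ofHom (algebraMap B Γ(Spec B, W)) ≫ W.topIso.inv := by
    rw [← h1, Category.assoc, Iso.hom_inv_id, Category.comp_id]
  rw [h3]
  infer_instance

/-- If `B → Γ(W)` is bijective but `W` misses a point, then `W` is not affine. -/
lemma not_isAffine_of_isIso_resHom (B : CommRingCat.{0}) (W : (Spec B).Opens)
    (h : IsIso (resHom B W)) (p : Spec B) (hp : p ∉ W) : ¬ IsAffine W.toScheme := by
  intro hA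
  have h1 : IsIso W.ι.appTop := by
    have : W.ι.appTop = (Scheme.ΓSpecIso B).hom ≫ resHom B W := by
      simp [resHom]
    rw [this]
    infer_instance
  have h2 : IsIso W.ι :=
    (HasAffineProperty.iff_of_isAffine (P := MorphismProperty.isomorphisms Scheme)).mpr ⟨hA, h1⟩
  have h3 : Function.Surjective W.ι := W.ι.homeomorph.surjective
  obtain ⟨q, hq⟩ := h3 p
  apply hp
  rw [← hq]
  exact q.2

/-- An isomorphism over `U` between the restrictions to `U` gives an isomorphism of algebras. -/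
lemma exists_algebra_iso {A R P : CommRingCat.{0}} (φ : A ⟶ R) (ψ : A ⟶ P) (U : (Spec A).Opens)
    (hR : IsIso (resHom R (Spec.map φ ⁻¹ᵁ U))) (hP : IsIso (resHom P (Spec.map ψ ⁻¹ᵁ U)))
    (E : (Spec.map φ ⁻¹ᵁ U).toScheme ≅ (Spec.map ψ ⁻¹ᵁ U).toScheme)
    (hE : E.hom ≫ (Spec.map ψ ∣_ U) = Spec.map φ ∣_ U) :
    ∃ e : P ≅ R, ψ ≫ e.hom = φ := by
  have key : ψ ≫ resHom P (Spec.map ψ ⁻¹ᵁ U) ≫ E.hom.appTop =
      φ ≫ resHom R (Spec.map φ ⁻¹ᵁ U) := by
    have e1 : ∀ {T : CommRingCat.{0}} (χ : A ⟶ T), χ ≫ resHom T (Spec.map χ ⁻¹ᵁ U) =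
        (Scheme.ΓSpecIso A).inv ≫ ((Spec.map χ ∣_ U) ≫ U.ι).appTop := by
      intro T χ
      rw [morphismRestrict_ι, Scheme.Hom.comp_appTop]
      simp only [resHom]
      rw [← Category.assoc, Scheme.ΓSpecIso_inv_naturality, Category.assoc]
    rw [← Category.assoc, e1, e1, ← hE, Category.assoc E.hom, Scheme.Hom.comp_appTop E.hom,
      Category.assoc]
  have hEi : IsIso E.hom.appTop := by
    have h0 : IsIso (Scheme.Γ.map E.hom.op) := inferInstance
    exact h0
  refine ⟨(asIso (resHom P (Spec.map ψ ⁻¹ᵁ U)) ≪≫ asIso E.hom.appTop ≪≫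
    (asIso (resHom R (Spec.map φ ⁻¹ᵁ U))).symm), ?_⟩
  simp only [Iso.trans_hom, asIso_hom, Iso.symm_hom, asIso_inv]
  rw [← Category.assoc, ← Category.assoc, IsIso.comp_inv_eq, Category.assoc, key]

/-- The trivial bundle is the restriction to `U` of `Spec P`. -/
lemma exists_iso_trivial {A P Q K : CommRingCat.{0}} (ψ : A ⟶ P) (U : (Spec A).Opens)
    (c : K ⟶ A) (cP : K ⟶ Q) (d : Q ⟶ P) (h : IsPushout c cP ψ d) :
    ∃ E : (Spec.map ψ ⁻¹ᵁ U).toScheme ≅ pullback (U.ι ≫ Spec.map c) (Spec.map cP),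
      E.hom ≫ pullback.fst _ _ = Spec.map ψ ∣_ U := by
  have hp1 : IsPullback (Spec.map ψ) (Spec.map d) (Spec.map c) (Spec.map cP) :=
    isPullback_SpecMap_of_isPushout _ _ _ _ h
  have hp2 := (isPullback_morphismRestrict (Spec.map ψ) U).paste_vert hp1
  exact ⟨hp2.isoPullback, hp2.isoPullback_hom_fst⟩

end Pool.Agent.PuncBundle
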