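import Pool.Agent.PuncBundle.Charts2
import Pool.Agent.PuncBundle.Global

/-!
# The counterexample: properties of `Spec R` restricted to the punctured plane
-/

set_option autoImplicit false

open AlgebraicGeometry CategoryTheory CategoryTheory.Limits MvPolynomial

namespace Pool.Agent.PuncBundle

noncomputable section

/-- structure map `ℂ[x,y] → R` -/
abbrev φ : CommRingCat.of A ⟶ CommRingCat.of R := CommRingCat.ofHom (algebraMap A R)

/-- structure map `ℂ[x,y] → ℂ[x,y][s,t]` -/
abbrev ψ : CommRingCat.of A ⟶ CommRingCat.of (MvPolynomial (Fin 2) A) :=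
  CommRingCat.ofHom (C : A →+* MvPolynomial (Fin 2) A)

/-- The punctured plane. -/
abbrev UU : (Spec (CommRingCat.of A)).Opens :=
  (PrimeSpectrum.basicOpen (xA : A) ⊔ PrimeSpectrum.basicOpen (yA : A) :
          (Spec (CommRingCat.of (MvPolynomial (Fin 2) ℂ))).Opens)

lemma preimage_UU {B : CommRingCat.{0}} (χ : CommRingCat.of A ⟶ B) :
    Spec.map χ ⁻¹ᵁ UU = (PrimeSpectrum.basicOpen (χ xA) ⊔ PrimeSpectrum.basicOpen (χ yA) :
      (Spec B).Opens) := by
  rfl

lemma isIso_R : IsIso (resHom (CommRingCat.of R) (Spec.map φ ⁻¹ᵁ UU)) :=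
  isIso_resHom (CommRingCat.of R) (algebraMap A R xA) (algebraMap A R yA) hartogs_R _
    (preimage_UU φ)

lemma isIso_P : IsIso (resHom (CommRingCat.of (MvPolynomial (Fin 2) A)) (Spec.map ψ ⁻¹ᵁ UU)) :=
  isIso_resHom (CommRingCat.of (MvPolynomial (Fin 2) A)) (C xA) (C yA) hartogs_S _
    (preimage_UU ψ)

/-- `ε : R → ℂ[ε]`, killing `x, y, z₀, z₁` and sending `T` to `ε`. -/
def evalDual : R →+* DualNumber ℂ :=
  quadLift (eval₂Hom ((algebraMap ℂ (DualNumber ℂ)).comp (MvPolynomial.eval (fun _ => (0 : ℂ))))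
    (fun _ => 0)) DualNumber.eps (by simp [q])

lemma evalDual_T : evalDual T = DualNumber.eps := by
  simp [evalDual, quadLift]

lemma evalDual_algebraMap (a : A) :
    evalDual (algebraMap A R a) = algebraMap ℂ (DualNumber ℂ) (MvPolynomial.eval (fun _ => 0) a) := by
  rw [algebraMap_A_R]
  simp [evalDual, quadLift]

/-- There is no isomorphism of `A`-algebras between `R` and a polynomial ring. -/
lemma no_algebra_iso (e : CommRingCat.of (MvPolynomial (Fin 2) A) ≅ CommRingCat.of R)
    (he : ψ ≫ e.hom = φ) : False := by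
  -- ring homs
  set θ : MvPolynomial (Fin 2) A →+* R := e.hom.hom with hθ
  set θ' : R →+* MvPolynomial (Fin 2) A := e.inv.hom with hθ'
  have h1 : ∀ r, θ (θ' r) = r := by
    intro r
    have := congrArg (fun f => f.hom r) e.inv_hom_id
    exact this
  have h2 : ∀ a : A, θ (C a) = algebraMap A R a := by
    intro a
    have := congrArg (fun f => f.hom a) he
    exact this
  have h3 : ∀ a : A, θ' (algebraMap A R a) = C a := by
    intro a
    rw [← h2]
    have := congrArg (fun f => f.hom (C a)) e.hom_inv_id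
    exact this
  -- reduce modulo `x, y`
  let ρ : MvPolynomial (Fin 2) A →+* MvPolynomial (Fin 2) ℂ :=
    MvPolynomial.map (MvPolynomial.eval (fun _ => (0 : ℂ)))
  let δ : MvPolynomial (Fin 2) ℂ →+* DualNumber ℂ :=
    eval₂Hom (algebraMap ℂ (DualNumber ℂ)) (fun i => evalDual (θ (X i)))
  have hfac : δ.comp ρ = evalDual.comp θ := by
    apply MvPolynomial.ringHom_ext
    · intro a
      simp only [RingHom.comp_apply, h2, evalDual_algebraMap, ρ, δ, map_C, coe_eval₂Hom, eval₂_C]
    · intro i
      simp [ρ, δ]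
  have hT2 : ρ (θ' T) * ρ (θ' T) = 0 := by
    rw [← map_mul, ← map_mul, T_mul_T, map_sub, map_mul, map_mul, h3, h3, map_sub, map_mul,
      map_mul]
    simp [ρ]
  have hT : ρ (θ' T) = 0 := by
    rcases mul_self_eq_zero.mp hT2 with h
    exact h
  have h4 : evalDual (θ (θ' T)) = 0 := by
    have := congrArg (fun f => f (θ' T)) hfac
    simp only [RingHom.comp_apply] at this
    rw [← this, hT, map_zero]
  rw [h1, evalDual_T] at h4
  have := congrArg TrivSqZeroExt.snd h4
  simp at this

end

end Pool.Agent.PuncBundle
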