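import Pool.Agent.PuncBundle.Algebra

/-!
# Sections over `D(a) ∪ D(b)`
-/

set_option autoImplicit false

open AlgebraicGeometry CategoryTheory CategoryTheory.Limits MvPolynomial Opposite
open TopologicalSpace

namespace Pool.Agent.PuncBundle

lemma HartogsPair.reg_pow_a {B : Type*} [CommRing B] {a b : B} (h : HartogsPair B a b)
    (k : ℕ) (r : B) (hr : a ^ k * r = 0) : r = 0 := by
  induction k generalizing r with
  | zero => simpa using hr
  | succ k ih =>
    rw [pow_succ, mul_assoc] at hr
    exact h.reg_a _ (ih _ hr)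

lemma HartogsPair.reg_pow_b {B : Type*} [CommRing B] {a b : B} (h : HartogsPair B a b)
    (k : ℕ) (r : B) (hr : b ^ k * r = 0) : r = 0 := by
  induction k generalizing r with
  | zero => simpa using hr
  | succ k ih =>
    rw [pow_succ, mul_assoc] at hr
    exact h.reg_b _ (ih _ hr)

/-- restriction is compatible with the algebra structures -/
lemma res_algebraMap (B : CommRingCat.{0}) {V W : (Spec B).Opens} (i : V ⟶ W) (r : B) :
    (Spec B).presheaf.map i.op (algebraMap B Γ(Spec B, W) r) = algebraMap B Γ(Spec B, V) r := by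
  rw [IsAffineOpen.algebraMap_Spec_obj, IsAffineOpen.algebraMap_Spec_obj, ← CommRingCat.comp_apply, Category.assoc,
    ← Functor.map_comp]
  rfl

theorem bijective_algebraMap (B : CommRingCat.{0}) (a b : B) (h : HartogsPair B a b)
    (W : (Spec B).Opens)
    (hW : W = (PrimeSpectrum.basicOpen a ⊔ PrimeSpectrum.basicOpen b : (Spec B).Opens)) :
    Function.Bijective (algebraMap B Γ(Spec B, W)) := by
  set Da : (Spec B).Opens := PrimeSpectrum.basicOpen a with hDa
  set Db : (Spec B).Opens := PrimeSpectrum.basicOpen b with hDb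
  have hla : Da ≤ W := by rw [hW]; exact le_sup_left
  have hlb : Db ≤ W := by rw [hW]; exact le_sup_right
  have : IsLocalization.Away a Γ(Spec B, Da) := inferInstanceAs
    (IsLocalization.Away a Γ(Spec B, PrimeSpectrum.basicOpen a))
  have : IsLocalization.Away b Γ(Spec B, Db) := inferInstanceAs
    (IsLocalization.Away b Γ(Spec B, PrimeSpectrum.basicOpen b))
  have hab : (Da ⊓ Db : (Spec B).Opens) = PrimeSpectrum.basicOpen (a * b) :=
    (PrimeSpectrum.basicOpen_mul a b).symm
  have : IsLocalization.Away (a * b) Γ(Spec B, (Da ⊓ Db : (Spec B).Opens)) := by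
    rw [hab]; infer_instance
  constructor
  · rw [injective_iff_map_eq_zero]
    intro r hr
    have h1 : algebraMap B Γ(Spec B, Da) r = 0 := by
      rw [← res_algebraMap B (homOfLE hla) r, hr, map_zero]
    rw [IsLocalization.map_eq_zero_iff (Submonoid.powers a)] at h1
    obtain ⟨⟨_, k, rfl⟩, hk⟩ := h1
    exact h.reg_pow_a k r hk
  · intro s
    obtain ⟨⟨r, ⟨_, k, rfl⟩⟩, hr⟩ := IsLocalization.surj (M := Submonoid.powers a)
      ((Spec B).presheaf.map (homOfLE hla).op s)
    obtain ⟨⟨r', ⟨_, l, rfl⟩⟩, hr'⟩ := IsLocalization.surj (M := Submonoid.powers b)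
      ((Spec B).presheaf.map (homOfLE hlb).op s)
    simp only at hr hr'
    -- restrict both to the overlap
    have e1 := congrArg ((Spec B).presheaf.map (homOfLE (inf_le_left : Da ⊓ Db ≤ Da)).op) hr
    have e2 := congrArg ((Spec B).presheaf.map (homOfLE (inf_le_right : Da ⊓ Db ≤ Db)).op) hr'
    rw [map_mul, res_algebraMap, res_algebraMap, ← CommRingCat.comp_apply,
      ← Functor.map_comp] at e1 e2
    set s' := (Spec B).presheaf.map (homOfLE (inf_le_left.trans hla : Da ⊓ Db ≤ W)).op s with hs'
    have e1' : s' * algebraMap B _ (a ^ k) = algebraMap B _ r := e1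
    have e2' : s' * algebraMap B _ (b ^ l) = algebraMap B _ r' := e2
    have e3 : algebraMap B Γ(Spec B, (Da ⊓ Db : (Spec B).Opens)) (b ^ l * r - a ^ k * r') = 0 := by
      rw [map_sub, map_mul, map_mul, ← e1', ← e2']
      ring
    rw [IsLocalization.map_eq_zero_iff (Submonoid.powers (a * b))] at e3
    obtain ⟨⟨_, m, rfl⟩, hm⟩ := e3
    simp only [mul_pow] at hm
    rw [mul_assoc] at hm
    have e4 : b ^ l * r = a ^ k * r' := sub_eq_zero.mp (h.reg_pow_b m _ (h.reg_pow_a m _ hm))
    obtain ⟨u, hu⟩ := h.dvd k l r r' e4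
    have e5 : r' = b ^ l * u := by
      have : a ^ k * (r' - b ^ l * u) = 0 := by
        rw [mul_sub, ← e4, hu]; ring
      exact sub_eq_zero.mp (h.reg_pow_a k _ this)
    refine ⟨u, ?_⟩
    refine (Spec B).sheaf.eq_of_locally_eq₂ (homOfLE hla) (homOfLE hlb) hW.le _ _ ?_ ?_
    · change (Spec B).presheaf.map (homOfLE hla).op _ = (Spec B).presheaf.map (homOfLE hla).op s
      rw [res_algebraMap]
      have hunit : IsUnit (algebraMap B Γ(Spec B, Da) (a ^ k)) :=
        IsLocalization.map_units Γ(Spec B, Da) (⟨a ^ k, k, rfl⟩ : Submonoid.powers a)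
      apply hunit.mul_right_cancel
      rw [hr, hu, map_mul, mul_comm]
    · change (Spec B).presheaf.map (homOfLE hlb).op _ = (Spec B).presheaf.map (homOfLE hlb).op s
      rw [res_algebraMap]
      have hunit : IsUnit (algebraMap B Γ(Spec B, Db) (b ^ l)) :=
        IsLocalization.map_units Γ(Spec B, Db) (⟨b ^ l, l, rfl⟩ : Submonoid.powers b)
      apply hunit.mul_right_cancel
      rw [hr', e5, map_mul, mul_comm]

end Pool.Agent.PuncBundle
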